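import Pool.Agent.Helper8_HK.Stmt3

/-! Squad HK, module HOL (helper48): holomorphic functions are stable under the slash action and
bounded on the affinoids. -/

namespace Pool.Agent.HK.H48

open Polynomial Filter

section

variable {C : Type} [NormedField C]

/-- the homogenised numerator or denominator -/
noncomputable def hom (a b c d : C) (M : ℕ) (P : Polynomial C) : Polynomial C :=
  ∑ i ∈ Finset.range (M + 1), Polynomial.C (P.coeff i) * (Polynomial.C a * X + Polynomial.C b) ^ i *
    (Polynomial.C c * X + Polynomial.C d) ^ (M - i)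

theorem hom_eval (a b c d : C) (M : ℕ) (P : Polynomial C) (hP : P.natDegree ≤ M) (z : C)
    (hz : c * z + d ≠ 0) :
    (hom a b c d M P).eval z = (c * z + d) ^ M * P.eval ((a * z + b) / (c * z + d)) := by
  unfold hom
  rw [Polynomial.eval_finsetSum, Polynomial.eval_eq_sum_range' (n := M + 1) (by omega),
    Finset.mul_sum]
  refine Finset.sum_congr rfl fun i hi => ?_
  have hi' : i ≤ M := by
    have := Finset.mem_range.1 hi
    omega
  simp only [Polynomial.eval_mul, Polynomial.eval_pow, Polynomial.eval_add, Polynomial.eval_C,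
    Polynomial.eval_X]
  obtain ⟨j, rfl⟩ := Nat.exists_eq_add_of_le hi'
  rw [Nat.add_sub_cancel_left, pow_add, div_pow]
  generalize c * z + d = w at hz ⊢
  generalize a * z + b = v
  have hw : w ^ i ≠ 0 := pow_ne_zero _ hz
  field_simp

theorem prod_lower {r : ℝ} (hr : 0 ≤ r) (z : C) (s : Multiset C)
    (hs : ∀ b ∈ s, r ≤ ‖z - b‖) :
    r ^ Multiset.card s ≤ ‖(s.map fun b => z - b).prod‖ := by
  induction s using Multiset.induction_on with
  | empty => simp
  | cons b s ih =>
    rw [Multiset.map_cons, Multiset.prod_cons, norm_mul, Multiset.card_cons, pow_succ, mul_comm]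
    exact mul_le_mul (hs b (Multiset.mem_cons_self b s))
      (ih fun b' hb' => hs b' (Multiset.mem_cons_of_mem hb')) (pow_nonneg hr _) (norm_nonneg _)

theorem poly_upper (P : Polynomial C) {R : ℝ} (z : C) (hz : ‖z‖ ≤ R) :
    ‖P.eval z‖ ≤ ∑ i ∈ Finset.range (P.natDegree + 1), ‖P.coeff i‖ * R ^ i := by
  rw [Polynomial.eval_eq_sum_range]
  refine (norm_sum_le _ _).trans (Finset.sum_le_sum fun i _ => ?_)
  rw [norm_mul, norm_pow]
  gcongr

end

theorem hol (hIMM : IMMStmt) : HOLStmt := by
  intro F _ _ C _ _ _ _ ι hι f hf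
  refine ⟨fun g => ?_, fun N => ?_⟩
  · intro N ε hε
    obtain ⟨N', c0, hc0, h1⟩ := (hIMM F C ι hι g).2 N
    set a : C := ι (g 0 0) with ha
    set b : C := ι (g 0 1) with hb
    set c : C := ι (g 1 0) with hc
    set d : C := ι (g 1 1) with hd
    set D : C := ι (g 0 0 * g 1 1 - g 0 1 * g 1 0) with hD
    obtain ⟨P, Q, h2, h3⟩ := hf N' (ε * c0 ^ 2 / (‖D‖ + 1)) (by positivity)
    set M : ℕ := max P.natDegree Q.natDegree with hM
    refine ⟨Polynomial.C D * hom a b c d M P,
      (Polynomial.C c * X + Polynomial.C d) ^ 2 * hom a b c d M Q, fun z hz => ?_, fun z hz => ?_⟩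
    · obtain ⟨h4, h5⟩ := h1 z hz
      have h6 : c * z + d ≠ 0 := by
        intro h
        rw [h, norm_zero] at h5
        linarith
      rw [Polynomial.eval_mul, hom_eval a b c d M Q (le_max_right _ _) z h6]
      simp only [Polynomial.eval_mul, Polynomial.eval_pow, Polynomial.eval_add, Polynomial.eval_C,
        Polynomial.eval_X]
      exact mul_ne_zero (pow_ne_zero _ h6) (mul_ne_zero (pow_ne_zero _ h6) (h2 _ h4))
    · obtain ⟨h4, h5⟩ := h1 z hz
      have h6 : c * z + d ≠ 0 := by
        intro h
        rw [h, norm_zero] at h5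
        linarith
      have h7 := h3 _ h4
      have h8 := h2 _ h4
      rw [Polynomial.eval_mul, Polynomial.eval_mul, hom_eval a b c d M Q (le_max_right _ _) z h6,
        hom_eval a b c d M P (le_max_left _ _) z h6]
      simp only [Polynomial.eval_mul, Polynomial.eval_pow, Polynomial.eval_add, Polynomial.eval_C,
        Polynomial.eval_X]
      have e1 : mob ι g z = (a * z + b) / (c * z + d) := rfl
      rw [e1] at h7 h8
      have e2 : slash ι g f z = D * ((c * z + d) ^ 2)⁻¹ * f ((a * z + b) / (c * z + d)) := rfl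
      have h9 : slash ι g f z - D * ((c * z + d) ^ M * eval ((a * z + b) / (c * z + d)) P) /
          ((c * z + d) ^ 2 * ((c * z + d) ^ M * eval ((a * z + b) / (c * z + d)) Q))
          = D * ((c * z + d) ^ 2)⁻¹ * (f ((a * z + b) / (c * z + d)) -
            eval ((a * z + b) / (c * z + d)) P / eval ((a * z + b) / (c * z + d)) Q) := by
        rw [e2]
        have h10 : (c * z + d) ^ M ≠ 0 := pow_ne_zero _ h6
        field_simp
      rw [h9, norm_mul, norm_mul, norm_inv, norm_pow]
      have h11 : (‖c * z + d‖ ^ 2)⁻¹ ≤ (c0 ^ 2)⁻¹ := by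
        gcongr
      calc ‖D‖ * (‖c * z + d‖ ^ 2)⁻¹ * ‖f ((a * z + b) / (c * z + d)) -
            eval ((a * z + b) / (c * z + d)) P / eval ((a * z + b) / (c * z + d)) Q‖
          ≤ ‖D‖ * (c0 ^ 2)⁻¹ * (ε * c0 ^ 2 / (‖D‖ + 1)) := by
            gcongr
        _ = ‖D‖ / (‖D‖ + 1) * ε := by
            field_simp
        _ < 1 * ε := by
            gcongr
            rw [div_lt_one (by positivity)]
            linarith
        _ = ε := one_mul _
  · obtain ⟨P, Q, h1, h2⟩ := hf N 1 one_pos
    by_cases hQ : Q = 0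
    · refine ⟨0, fun z hz => ?_⟩
      have := h1 z hz
      rw [hQ, Polynomial.eval_zero] at this
      exact absurd rfl this
    set q : ℝ := ((Fintype.card F : ℕ) : ℝ) ^ N with hq
    have hq1 : 1 ≤ q := by
      have : (1 : ℝ) ≤ (Fintype.card F : ℕ) := by
        exact_mod_cast Fintype.card_pos
      exact one_le_pow₀ this
    have hq0 : 0 < q := by linarith
    have hroot : ∀ z ∈ OmN ι N, ∀ b ∈ Q.roots, q⁻¹ ≤ ‖z - b‖ := by
      intro z hz b hb
      have hbN : b ∉ OmN ι N := by
        intro h
        exact h1 b h ((Polynomial.mem_roots hQ).1 hb)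
      by_cases hbq : ‖b‖ ≤ q
      · have : ∃ x : Kinf F, ‖b - ι x‖ < q⁻¹ := by
          by_contra hcon
          push Not at hcon
          exact hbN ⟨hbq, hcon⟩
        obtain ⟨x, hx⟩ := this
        have hzx := hz.2 x
        have e : z - b = (z - ι x) - (b - ι x) := by ring
        by_contra hcon
        rw [not_le] at hcon
        have h3 : z - ι x = (z - b) + (b - ι x) := by ring
        have h4 : ‖z - ι x‖ ≤ max ‖z - b‖ ‖b - ι x‖ := by
          rw [h3]
          exact IsUltrametricDist.norm_add_le_max _ _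
        have h5 := max_lt hcon hx
        linarith
      · rw [not_le] at hbq
        by_contra hcon
        rw [not_le] at hcon
        have h3 : b = z - (z - b) := by ring
        have h4 : ‖b‖ ≤ max ‖z‖ ‖z - b‖ := by
          conv_lhs => rw [h3]
          rw [sub_eq_add_neg]
          refine (IsUltrametricDist.norm_add_le_max _ _).trans ?_
          rw [norm_neg]
        have h6 : q⁻¹ ≤ q := (inv_le_one_of_one_le₀ hq1).trans hq1
        have h5 : max ‖z‖ ‖z - b‖ ≤ q := max_le hz.1 (hcon.le.trans h6)
        linarith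
    have hlow : ∀ z ∈ OmN ι N, ‖Q.leadingCoeff‖ * (q⁻¹) ^ Multiset.card Q.roots ≤ ‖Q.eval z‖ := by
      intro z hz
      have hs := (IsAlgClosed.splits Q).eq_prod_roots
      conv_rhs => rw [hs]
      rw [Polynomial.eval_mul, Polynomial.eval_C, norm_mul, Polynomial.eval_multiset_prod,
        Multiset.map_map]
      refine mul_le_mul_of_nonneg_left ?_ (norm_nonneg _)
      have := prod_lower (inv_nonneg.2 hq0.le) z Q.roots (hroot z hz)
      simpa using this
    have hl : 0 < ‖Q.leadingCoeff‖ * (q⁻¹) ^ Multiset.card Q.roots := by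
      have : Q.leadingCoeff ≠ 0 := Polynomial.leadingCoeff_ne_zero.2 hQ
      positivity
    refine ⟨1 + (∑ i ∈ Finset.range (P.natDegree + 1), ‖P.coeff i‖ * q ^ i) /
      (‖Q.leadingCoeff‖ * (q⁻¹) ^ Multiset.card Q.roots), fun z hz => ?_⟩
    have h3 := h2 z hz
    have h4 := poly_upper P z hz.1
    have h5 := hlow z hz
    have e : f z = (f z - P.eval z / Q.eval z) + P.eval z / Q.eval z := by ring
    rw [e]
    refine (norm_add_le _ _).trans (add_le_add h3.le ?_)
    rw [norm_div]
    gcongr

end Pool.Agent.HK.H48
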